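import Mathlib
import Pool.Agent.Helper73.EK.Defs
import Pool.Agent.Helper73.EK.Select
import Pool.Agent.Helper73.EK.Signs
import Pool.Agent.Helper73.EK.Cls
import Pool.Agent.Helper40.EKPV
import Pool.Agent.Helper40.EKDyadic
import Pool.Agent.Helper69.EK.Selberg
import Pool.Agent.Helper44.EKLfun
import Pool.Agent.Helper59.EKLimit

set_option autoImplicit false

namespace Pool.Agent.Results.MP_4e26da_nt.DenseValues

open Finset Filter Pool.Agent.Helper73.EK

lemma pv : PV := fun _ hodd hns a t => Pool.Agent.Helper40.EKPV.jacobi_sum_le hodd hns a t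

lemma selberg : SelbergHyp := by
  intro D hD R hR
  obtain ⟨lam, h1, h2, h3, h4⟩ := Pool.Agent.Helper69.EK.selberg_weights hD hR
  refine ⟨lam, h1, h2, h3, h4.trans ?_⟩
  have hlog : 0 < Real.log R := Real.log_pos (by exact_mod_cast (show 1 < R by omega))
  have hφ : (0 : ℝ) < D.totient := by exact_mod_cast (Nat.totient_pos.2 hD)
  have hDr : (0 : ℝ) < D := by exact_mod_cast hD
  rw [div_le_div_iff_of_pos_right (by positivity)]
  linarith

lemma dyadic : DyadicHyp := fun _ hD b hb J => Pool.Agent.Helper40.EK.exists_dyadic_primes hD b hb J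

lemma exists_char {q : ℕ} (hq : q.Prime) : ∃ χ : DirichletCharacter ℂ q,
    ∀ n : ℕ, χ (n : ZMod q) = ((jacobiSym (n : ℤ) q : ℤ) : ℂ) := by
  have : Fact q.Prime := ⟨hq⟩
  refine ⟨(quadraticChar (ZMod q)).ringHomComp (Int.castRingHom ℂ), fun n => ?_⟩
  rw [MulChar.ringHomComp_apply, ← jacobiSym.legendreSym.to_jacobiSym, legendreSym]
  simp

/-- **The values `γ_{k,q}` are dense in the real line.** For every real `x` (in particular for
`x = 1/2`) and every `ε > 0` there is an admissible pair `(k, q)` whose Euler–Kronecker constant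
`γ_{k,q}` satisfies `|γ_{k,q} - x| < ε`. -/
theorem result (x ε : ℝ) (hε : 0 < ε) :
    ∃ (k q : ℕ) (g : ℝ), Admissible k q ∧ IsEKConstant k q g ∧ |g - x| < ε := by
  classical
  -- parameters
  set η : ℝ := min (1 / 8) (ε / 12) with hη
  have hη0 : 0 < η := lt_min (by norm_num) (by positivity)
  have hη8 : η ≤ 1 / 8 := min_le_left _ _
  have hηε : η ≤ ε / 12 := min_le_right _ _
  obtain ⟨y₀, hsel⟩ := exists_good_prime pv selberg dyadic η hη0
  have hlim : Tendsto (fun y : ℕ => 100 / Real.sqrt ((y : ℝ) + 1)) atTop (nhds 0) := by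
    apply Tendsto.div_atTop tendsto_const_nhds
    exact Real.tendsto_sqrt_atTop.comp (tendsto_atTop_add_const_right _ _ tendsto_natCast_atTop_atTop)
  obtain ⟨y₁, hy₁⟩ := eventually_atTop.1 (hlim.eventually (gt_mem_nhds (show 0 < ε / 4 by positivity)))
  obtain ⟨y, hy, e, he, hsum⟩ := exists_signs (Real.eulerMascheroniConstant - 2 * x)
    (show 0 < ε / 4 by positivity) (max (max y₀ y₁) 2)
  have hyy₀ : y₀ ≤ y := by omega
  have hyy₁ : y₁ ≤ y := by omega
  have hyy2 : 2 ≤ y := by omega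
  obtain ⟨b, hb, hcls⟩ := exists_class e he y hyy2
  obtain ⟨q, N, hq, hqQ, hqb, hN, hS1, hS2, hT⟩ := hsel y hyy₀ b hb (max 5 (y + 1))
  have hq5 : 5 ≤ q := by omega
  have hyq : y < q := by omega
  obtain ⟨hq4, hsym⟩ := hcls q hq hqb
  have : NeZero q := ⟨hq.ne_zero⟩
  obtain ⟨χ, hχ⟩ := exists_char hq
  -- symmetry of the Jacobi symbol
  have hrec : ∀ n ∈ rough y N, jacobiSym (n : ℤ) q = jacobiSym (q : ℤ) n := fun n hn =>
    (jacobiSym.quadratic_reciprocity_one_mod_four hq4 (odd_coprime_of_rough hyy2 hn).1).symm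
  have h0 : |∑ n ∈ rough y N, (jacobiSym (n : ℤ) q : ℝ) / n| ≤ η := by
    rw [sum_congr rfl fun n hn => by rw [hrec n hn]]; exact hS1
  have h1 : |∑ n ∈ rough y N, (jacobiSym (n : ℤ) q : ℝ) * Real.log n / n| ≤ η := by
    rw [sum_congr rfl fun n hn => by rw [hrec n hn]]; exact hS2
  have hqodd : Odd q := hq.odd_of_ne_two (by omega)
  have hPVq : ∀ t : ℕ, |∑ i ∈ Finset.range t, (jacobiSym (i : ℤ) q : ℝ)|
      ≤ 4 * Real.sqrt q * (1 + Real.log q) := by
    intro t
    have := pv q hqodd hq.prime.not_isSquare 0 t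
    simpa using this
  have hD := Pool.Agent.Helper44.EKL.Lderiv_bound hq hq4 χ hχ hPVq y N hyq hN η hη8 h0 h1 hT
  obtain ⟨E, hE, hEb⟩ := Pool.Agent.Helper59.EKLimit.isEK_of_char hq hq5 χ hχ
  have hEy := (hEb y hyq).trans (hy₁ y hyy₁).le
  refine ⟨(q - 1) / 2, q, _, ⟨hq, by omega, by omega, ?_⟩, hE, ?_⟩
  · -- h = 2
    have h2 : (q - 1) % 2 = 0 := by omega
    obtain ⟨m, hm⟩ : ∃ m, q - 1 = 2 * m := ⟨(q - 1) / 2, by omega⟩
    have h3 : hNum ((q - 1) / 2) q = 2 := by
      unfold hNum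
      rw [hm, Nat.mul_div_cancel_left m (by norm_num), Nat.gcd_mul_left_right,
        Nat.mul_div_cancel _ (by omega)]
    rw [h3]; exact even_two
  · -- closeness
    have hsplit : ∑ p ∈ (range (y + 1)).filter Nat.Prime, cp p (e p)
        = ∑ p ∈ (Finset.range (y+1)).filter Nat.Prime, (jacobiSym (p : ℤ) q : ℝ) * Real.log p / (p - (jacobiSym (p : ℤ) q : ℝ))
        + ∑ p ∈ (Finset.range (y+1)).filter (fun p : ℕ => p.Prime ∧ jacobiSym (p : ℤ) q = -1), 2 * Real.log p / ((p:ℝ)^2 - 1) := by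
      have e1 : ∑ p ∈ (Finset.range (y+1)).filter (fun p : ℕ => p.Prime ∧ jacobiSym (p : ℤ) q = -1), 2 * Real.log p / ((p:ℝ)^2 - 1)
          = ∑ p ∈ (Finset.range (y+1)).filter Nat.Prime,
            if jacobiSym (p : ℤ) q = -1 then 2 * Real.log p / ((p:ℝ)^2 - 1) else 0 := by
        rw [← sum_filter, filter_filter]
      rw [e1, ← sum_add_distrib]
      refine sum_congr rfl fun p hp => ?_
      rw [mem_filter, mem_range] at hp
      unfold cp
      rw [hsym p (by omega) hp.2]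
    rw [hsplit] at hsum
    rw [abs_le] at hsum hD hEy
    rw [abs_lt]
    constructor <;> linarith [hsum.1, hsum.2, hD.1, hD.2, hEy.1, hEy.2]

end Pool.Agent.Results.MP_4e26da_nt.DenseValues
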